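import Pool.Agent.H695R3.PP.Stmts

/-! Project H695-LP: closedness of spectral conditions (helper176). -/

set_option autoImplicit false

namespace Pool.Agent.H176R4.PP

open Pool.Agent.H695R3.PP

lemma eig_le {V : ℤ → ℝ} {a b : ℤ} {E : ℝ} {ψ : ℤ → ℝ} (h : IsEig V a b E ψ) (n : ℤ) :
    |ψ n| ≤ 1 := by
  obtain ⟨h1, h2, _⟩ := h
  by_cases hn : n < a ∨ b < n
  · rw [h1 n hn, abs_zero]
    exact zero_le_one
  · have hmem : n ∈ Finset.Icc a b := by
      rw [Finset.mem_Icc]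
      omega
    have h3 : ψ n ^ 2 ≤ nsq a b ψ := by
      unfold nsq
      exact Finset.single_le_sum (f := fun n => ψ n ^ 2) (fun i _ => sq_nonneg _) hmem
    rw [h2] at h3
    exact abs_le_one_iff_mul_self_le_one.mpr (by nlinarith)

/-- the compact set of energies and wave functions -/
def KK (R : ℝ) : Set (ℝ × (ℤ → ℝ)) :=
  Set.Icc (-R) R ×ˢ (Set.univ.pi fun _ : ℤ => Set.Icc (-1 : ℝ) 1)

lemma isCompact_KK (R : ℝ) : IsCompact (KK R) :=
  isCompact_Icc.prod (isCompact_univ_pi fun _ => isCompact_Icc)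

lemma mem_KK {V : ℤ → ℝ} {a b : ℤ} {E R : ℝ} {ψ : ℤ → ℝ} (h : IsEig V a b E ψ) (hE : |E| ≤ R) :
    (E, ψ) ∈ KK R :=
  ⟨abs_le.mp hE, fun n _ => abs_le.mp (eig_le h n)⟩

lemma isClosed_eig {X : Type} [TopologicalSpace X] (a b : ℤ) (fV fψ : X → ℤ → ℝ) (fE : X → ℝ)
    (hV : Continuous fV) (hψ : Continuous fψ) (hE : Continuous fE) :
    IsClosed {x : X | IsEig (fV x) a b (fE x) (fψ x)} := by
  have hV' : ∀ n, Continuous fun x => fV x n := fun n => (continuous_apply n).comp hV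
  have hψ' : ∀ n, Continuous fun x => fψ x n := fun n => (continuous_apply n).comp hψ
  have h1 : IsClosed {x : X | ∀ n, n < a ∨ b < n → fψ x n = 0} := by
    have : {x : X | ∀ n, n < a ∨ b < n → fψ x n = 0} =
        ⋂ n : ℤ, ⋂ _ : n < a ∨ b < n, {x : X | fψ x n = 0} := by
      ext x
      simp
    rw [this]
    exact isClosed_iInter fun n => isClosed_iInter fun _ =>
      isClosed_eq (hψ' n) continuous_const
  have h2 : IsClosed {x : X | nsq a b (fψ x) = 1} := by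
    unfold nsq
    exact isClosed_eq (continuous_finsetSum _ fun n _ => (hψ' n).pow 2) continuous_const
  have h3 : IsClosed {x : X | ∀ n, a ≤ n → n ≤ b →
      fψ x (n + 1) + fψ x (n - 1) + fV x n * fψ x n = fE x * fψ x n} := by
    have : {x : X | ∀ n, a ≤ n → n ≤ b →
        fψ x (n + 1) + fψ x (n - 1) + fV x n * fψ x n = fE x * fψ x n} =
        ⋂ n : ℤ, ⋂ _ : a ≤ n, ⋂ _ : n ≤ b,
          {x : X | fψ x (n + 1) + fψ x (n - 1) + fV x n * fψ x n = fE x * fψ x n} := by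
      ext x
      simp
    rw [this]
    exact isClosed_iInter fun n => isClosed_iInter fun _ => isClosed_iInter fun _ =>
      isClosed_eq (((hψ' _).add (hψ' _)).add ((hV' n).mul (hψ' n))) (hE.mul (hψ' n))
  have h4 : {x : X | IsEig (fV x) a b (fE x) (fψ x)} =
      {x : X | ∀ n, n < a ∨ b < n → fψ x n = 0} ∩ ({x : X | nsq a b (fψ x) = 1} ∩
        {x : X | ∀ n, a ≤ n → n ≤ b →
          fψ x (n + 1) + fψ x (n - 1) + fV x n * fψ x n = fE x * fψ x n}) := by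
    ext x
    exact Iff.rfl
  rw [h4]
  exact h1.inter (h2.inter h3)

/-- projections along a compact set -/
lemma isClosed_proj {X Y : Type} [TopologicalSpace X] [TopologicalSpace Y] {K : Set X}
    (hK : IsCompact K) (S : Set (X × Y)) (hS : IsClosed S) :
    IsClosed {y : Y | ∃ x ∈ K, (x, y) ∈ S} := by
  have : CompactSpace K := isCompact_iff_compactSpace.mp hK
  have h1 : IsClosed {p : K × Y | ((p.1 : X), p.2) ∈ S} :=
    hS.preimage ((continuous_subtype_val.comp continuous_fst).prodMk continuous_snd)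
  have h2 := isClosedMap_snd_of_compactSpace (X := K) (Y := Y) _ h1
  convert h2 using 1
  ext y
  constructor
  · rintro ⟨x, hx, hy⟩
    exact ⟨(⟨x, hx⟩, y), hy, rfl⟩
  · rintro ⟨⟨⟨x, hx⟩, y'⟩, hy, rfl⟩
    exact ⟨x, hx, hy⟩

theorem taskClosed : TaskClosed := by
  intro a b R C hC
  have h1 : IsClosed {p : (ℝ × (ℤ → ℝ)) × (ℤ → ℝ) | IsEig p.2 a b p.1.1 p.1.2} :=
    isClosed_eig (X := (ℝ × (ℤ → ℝ)) × (ℤ → ℝ)) a b (fun p => p.2) (fun p => p.1.2) (fun p => p.1.1) continuous_snd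
      (continuous_snd.comp continuous_fst) (continuous_fst.comp continuous_fst)
  have h2 := isClosed_proj (isCompact_KK R)
    ({p : (ℝ × (ℤ → ℝ)) × (ℤ → ℝ) | IsEig p.2 a b p.1.1 p.1.2} ∩ C) (h1.inter hC)
  convert h2 using 1
  ext V
  constructor
  · rintro ⟨E, ψ, hE, he, hc⟩
    exact ⟨(E, ψ), mem_KK he hE, he, hc⟩
  · rintro ⟨⟨E, ψ⟩, hK, he, hc⟩
    exact ⟨E, ψ, abs_le.mpr hK.1, he, hc⟩

theorem taskClosed2 : TaskClosed2 := by
  intro a b a' b' R C hC
  let X := (ℝ × (ℤ → ℝ)) × (ℝ × (ℤ → ℝ))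
  have h1 : IsClosed {p : X × (ℤ → ℝ) | IsEig p.2 a b p.1.1.1 p.1.1.2} :=
    isClosed_eig (X := X × (ℤ → ℝ)) a b (fun p => p.2) (fun p => p.1.1.2) (fun p => p.1.1.1) continuous_snd
      (continuous_snd.comp (continuous_fst.comp continuous_fst))
      (continuous_fst.comp (continuous_fst.comp continuous_fst))
  have h1' : IsClosed {p : X × (ℤ → ℝ) | IsEig p.2 a' b' p.1.2.1 p.1.2.2} :=
    isClosed_eig (X := X × (ℤ → ℝ)) a' b' (fun p => p.2) (fun p => p.1.2.2) (fun p => p.1.2.1) continuous_snd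
      (continuous_snd.comp (continuous_snd.comp continuous_fst))
      (continuous_fst.comp (continuous_snd.comp continuous_fst))
  have h3 : IsClosed {p : X × (ℤ → ℝ) | p.1 ∈ C} := hC.preimage continuous_fst
  have h2 := isClosed_proj ((isCompact_KK R).prod (isCompact_KK R))
    ({p : X × (ℤ → ℝ) | IsEig p.2 a b p.1.1.1 p.1.1.2} ∩
      ({p : X × (ℤ → ℝ) | IsEig p.2 a' b' p.1.2.1 p.1.2.2} ∩ {p : X × (ℤ → ℝ) | p.1 ∈ C}))
    (h1.inter (h1'.inter h3))
  convert h2 using 1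
  ext V
  constructor
  · rintro ⟨E, ψ, E', ψ', hE, hE', he, he', hc⟩
    exact ⟨((E, ψ), (E', ψ')), ⟨mem_KK he hE, mem_KK he' hE'⟩, he, he', hc⟩
  · rintro ⟨⟨⟨E, ψ⟩, ⟨E', ψ'⟩⟩, ⟨hK, hK'⟩, he, he', hc⟩
    exact ⟨E, ψ, E', ψ', abs_le.mpr hK.1, abs_le.mpr hK'.1, he, he', hc⟩

end Pool.Agent.H176R4.PP
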